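import Pool.Agent.H73.Cub.Theta

/-!
# An abstract cost function and a small rotation with sign `-1`
-/

namespace Pool.Agent.H73.Cub

open scoped ENNReal

/-- `W d h` is the cost of the rotation by `d` with sign `h` -/
structure Cost (W : ℝ → ℤˣ → ℝ≥0∞) : Prop where
  add : ∀ d1 d2 h1 h2, W (d1 + d2) (h1 * h2) ≤ W d1 h1 + W d2 h2
  neg : ∀ d h, W (-d) h ≤ W d h
  zero : W 0 1 = 0

variable {W : ℝ → ℤˣ → ℝ≥0∞}

theorem Cost.sub (hW : Cost W) {d1 d2 : ℝ} {h1 h2 : ℤˣ} {a b : ℝ≥0∞} (h : W d1 h1 ≤ a)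
    (h' : W d2 h2 ≤ b) : W (d1 - d2) (h1 * h2) ≤ a + b := by
  rw [sub_eq_add_neg]
  exact (hW.add _ _ _ _).trans (add_le_add h ((hW.neg _ _).trans h'))

theorem Cost.nsmul (hW : Cost W) (j : ℕ) (d : ℝ) (h : ℤˣ) : W (j * d) (h ^ j) ≤ j * W d h := by
  induction j with
  | zero => simp [hW.zero]
  | succ j ih =>
    have h1 : ((j + 1 : ℕ) : ℝ) * d = j * d + d := by push_cast; ring
    rw [h1, pow_succ]
    refine (hW.add _ _ _ _).trans ?_
    push_cast
    rw [add_mul, one_mul]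
    exact add_le_add ih le_rfl

theorem Cost.zsmul (hW : Cost W) (j : ℤ) (d : ℝ) (h : ℤˣ) :
    W (j * d) (h ^ j.natAbs) ≤ j.natAbs * W d h := by
  rcases Int.natAbs_eq j with hj | hj
  · have : (j : ℝ) = (j.natAbs : ℝ) := by
      rw [← Int.cast_natCast, ← hj]
    rw [this]
    exact hW.nsmul _ _ _
  · have : (j : ℝ) * d = -((j.natAbs : ℝ) * d) := by
      have h1 : (j : ℝ) = -(j.natAbs : ℝ) := by
        rw [← Int.cast_natCast, ← Int.cast_neg, ← hj]
      rw [h1]; ring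
    rw [this]
    exact (hW.neg _ _).trans (hW.nsmul _ _ _)

theorem cost_fd (hW : Cost W) (η : ℝ≥0∞) (m : ℕ) : ∀ n : ℕ,
    (∀ i : ℕ, n ≤ i → i ≤ n + m → ∃ h, W (th i) h ≤ η) →
    ∃ h, W (fd^[m] th n) h ≤ 2 ^ m * η := by
  induction m with
  | zero =>
    intro n hn
    obtain ⟨h, hh⟩ := hn n le_rfl (by simp)
    exact ⟨h, by simpa using hh⟩
  | succ m ih =>
    intro n hn
    obtain ⟨h1, hh1⟩ := ih n (fun i hi hi' => hn i hi (by omega))
    obtain ⟨h2, hh2⟩ := ih (n + 1) (fun i hi hi' => hn i (by omega) (by omega))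
    refine ⟨h2 * h1, ?_⟩
    rw [Function.iterate_succ_apply']
    show W (fd^[m] th ((n : ℝ) + 1) - fd^[m] th n) (h2 * h1) ≤ _
    have h3 : ((n : ℝ) + 1) = ((n + 1 : ℕ) : ℝ) := by push_cast; ring
    rw [h3]
    refine (hW.sub hh2 hh1).trans ?_
    rw [pow_succ]
    apply le_of_eq
    ring

theorem greedy (m : ℕ) : ∃ C : ℝ, 0 < C ∧ ∀ Q : ℕ, 1 ≤ Q → 2 * m ≤ Q →
    ∀ (W : ℝ → ℤˣ → ℝ≥0∞), Cost W → ∀ η : ℝ≥0∞,
    (∀ i : ℕ, Q ≤ i → i ≤ Q + m → ∃ h, W (th i) h ≤ η) →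
    ∀ τ : ℝ, 0 ≤ τ → τ ≤ Real.pi → ∃ (β : ℝ) (h : ℤˣ), |τ - β| ≤ |fd^[m] th Q| ∧
      W β h ≤ ENNReal.ofReal (C * Q) * η := by
  induction m with
  | zero =>
    refine ⟨16, by norm_num, ?_⟩
    intro Q hQ _ W hW η hη τ hτ0 hτ
    have hQR : (1 : ℝ) ≤ Q := by exact_mod_cast hQ
    obtain ⟨h, hh⟩ := hη Q le_rfl (by simp)
    have hb := (th_fd_bounds 0 (n := Q) hQR (by simp)).1
    simp only [Function.iterate_zero, id_eq, Nat.factorial_zero, Nat.cast_one, zero_add, pow_one] at hb ⊢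
    have hs := th_pos (Q : ℝ)
    rw [abs_of_pos hs] at hb ⊢
    have hfl := Nat.floor_le (a := τ / th Q) (by positivity)
    have hfl2 := Nat.lt_floor_add_one (τ / th Q)
    refine ⟨(⌊τ / th Q⌋₊ : ℝ) * th Q, h ^ ⌊τ / th Q⌋₊, ?_, ?_⟩
    · rw [le_div_iff₀ hs] at hfl
      rw [div_lt_iff₀ hs] at hfl2
      rw [abs_le]
      constructor <;> nlinarith
    · refine (hW.nsmul _ _ _).trans ?_
      refine mul_le_mul' ?_ hh
      rw [← ENNReal.ofReal_natCast]
      apply ENNReal.ofReal_le_ofReal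
      refine hfl.trans ?_
      rw [div_le_iff₀ hs]
      have h1 : (1 : ℝ) / 2 / (2 * Q) * (16 * Q) = 4 := by field_simp; norm_num
      have h2 := Real.pi_le_four
      calc τ ≤ 4 := hτ.trans h2
        _ = 16 * Q * (1 / 2 / (2 * Q)) := by rw [← h1]; ring
        _ ≤ 16 * Q * th Q := by gcongr
  | succ m ih =>
    obtain ⟨C, hC, ih⟩ := ih
    refine ⟨C + 2 ^ (3 * m + 6), by positivity, ?_⟩
    intro Q hQ hmQ W hW η hη τ hτ0 hτ
    have hQR : (1 : ℝ) ≤ Q := by exact_mod_cast hQ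
    have hQ0 : (0 : ℝ) < Q := by linarith
    obtain ⟨β, h, hβ, hWβ⟩ := ih Q hQ (by omega) W hW η (fun i hi hi' => hη i hi (by omega)) τ hτ0 hτ
    have hm2 : 2 * ((m + 1 : ℕ) : ℝ) ≤ Q := by exact_mod_cast hmQ
    have hm1 : 2 * (m : ℝ) ≤ Q := by push_cast at hm2; linarith
    obtain ⟨hs1, -⟩ := th_fd_bounds (m + 1) (n := Q) hQR hm2
    obtain ⟨-, hs2⟩ := th_fd_bounds m (n := Q) hQR hm1
    obtain ⟨h', hh'⟩ := cost_fd hW η (m + 1) Q hη
    set s := fd^[m + 1] th Q with hs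
    have hspos : 0 < |s| := lt_of_lt_of_le (by positivity) hs1
    have hs0 : s ≠ 0 := abs_pos.1 hspos
    set j := round ((τ - β) / s) with hj
    have hr := abs_sub_round ((τ - β) / s)
    rw [← hj] at hr
    refine ⟨β + j * s, h * h' ^ j.natAbs, ?_, ?_⟩
    · have h1 : τ - (β + j * s) = ((τ - β) / s - j) * s := by field_simp; ring
      rw [h1, abs_mul]
      nlinarith
    · refine (hW.add _ _ _ _).trans ?_
      refine (add_le_add hWβ ((hW.zsmul j s h').trans (mul_le_mul' le_rfl hh'))).trans ?_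
      have hjb : (j.natAbs : ℝ) ≤ 2 ^ (2 * m + 4) * Q + 1 := by
        have h1 : (j.natAbs : ℝ) = |(j : ℝ)| := by
          rw [Nat.cast_natAbs, Int.cast_abs]
        rw [h1]
        have h2 : |(j : ℝ)| ≤ |(τ - β) / s| + 1 / 2 := by
          have := abs_sub_abs_le_abs_sub (j : ℝ) ((τ - β) / s)
          rw [abs_sub_comm] at hr
          linarith
        have h3 : |(τ - β) / s| ≤ 2 ^ (2 * m + 4) * Q := by
          rw [abs_div, div_le_iff₀ hspos]
          calc |τ - β| ≤ |fd^[m] th Q| := hβ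
            _ ≤ 2 ^ (m + 1) * (m.factorial : ℝ) / (Q : ℝ) ^ (m + 1) := hs2
            _ ≤ 2 ^ (2 * m + 4) * Q * (((m + 1).factorial : ℝ) / 2 / (2 * Q) ^ (m + 1 + 1)) := by
                rw [Nat.factorial_succ, mul_pow]
                push_cast
                have e1 : (2 : ℝ) ^ (2 * m + 4) * Q * ((m + 1) * (m.factorial : ℝ) / 2 / (2 ^ (m + 1 + 1) * (Q : ℝ) ^ (m + 1 + 1)))
                    = 2 ^ (m + 1) * ((m + 1) * (m.factorial : ℝ)) / (Q : ℝ) ^ (m + 1) := by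
                  field_simp
                  ring
                rw [e1]
                gcongr
                have : (1 : ℝ) ≤ m + 1 := by
                  have : (0 : ℝ) ≤ m := Nat.cast_nonneg m
                  linarith
                have h5 : (0 : ℝ) ≤ (m.factorial : ℝ) := by positivity
                nlinarith
            _ ≤ _ := by gcongr
        linarith
      have hj2 : (j.natAbs : ℝ≥0∞) * (2 ^ (m + 1) * η) ≤
          ENNReal.ofReal (2 ^ (3 * m + 6) * Q) * η := by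
        rw [← mul_assoc]
        refine mul_le_mul' ?_ le_rfl
        rw [← ENNReal.ofReal_natCast, show (2 : ℝ≥0∞) ^ (m + 1) = ENNReal.ofReal (2 ^ (m + 1)) by
          rw [ENNReal.ofReal_pow (by norm_num)]; simp, ← ENNReal.ofReal_mul (by positivity)]
        apply ENNReal.ofReal_le_ofReal
        calc (j.natAbs : ℝ) * 2 ^ (m + 1) ≤ (2 ^ (2 * m + 4) * Q + 1) * 2 ^ (m + 1) := by gcongr
          _ ≤ (2 ^ (2 * m + 4) * Q + 2 ^ (2 * m + 4) * Q) * 2 ^ (m + 1) := by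
              gcongr
              have : (1 : ℝ) ≤ 2 ^ (2 * m + 4) := one_le_pow₀ (by norm_num)
              nlinarith
          _ = 2 ^ (3 * m + 6) * Q := by ring
      refine (add_le_add le_rfl hj2).trans ?_
      rw [← add_mul, ← ENNReal.ofReal_add (by positivity) (by positivity), ← add_mul]

/-- a rotation by a tiny angle with sign `-1` and controlled cost -/
theorem small_element (M : ℕ) : ∃ C : ℝ, 0 < C ∧ ∀ Q : ℕ, 1 ≤ Q → 2 * M ≤ Q →
    ∀ (W : ℝ → ℤˣ → ℝ≥0∞), Cost W → ∀ η : ℝ≥0∞,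
    (∀ i : ℕ, Q ≤ i → i ≤ Q + M → ∃ h, W (th i) h ≤ η) →
    ∀ τ : ℝ, |τ| ≤ Real.pi → W τ (-1) ≤ η → ∃ δ : ℝ, |δ| ≤ C / (Q : ℝ) ^ (M + 1) ∧
      W δ (-1) ≤ ENNReal.ofReal (C * Q) * η := by
  obtain ⟨C, hC, hg⟩ := greedy M
  refine ⟨2 * C + 1 + 2 * (2 ^ (M + 1) * (M.factorial : ℝ)), by positivity, ?_⟩
  intro Q hQ hMQ W hW η hη τ hτ hWτ
  wlog hτ0 : 0 ≤ τ generalizing τ
  · exact this (-τ) (by rwa [abs_neg]) ((hW.neg _ _).trans hWτ) (by linarith)
  rw [abs_of_nonneg hτ0] at hτ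
  have hQR : (1 : ℝ) ≤ Q := by exact_mod_cast hQ
  obtain ⟨β, h, hβ, hWβ⟩ := hg Q hQ hMQ W hW η hη (τ / 2) (by positivity)
    (by linarith [Real.pi_pos])
  obtain ⟨-, hs2⟩ := th_fd_bounds M (n := Q) hQR (by exact_mod_cast hMQ)
  refine ⟨τ - (β + β), ?_, ?_⟩
  · have h1 : τ - (β + β) = 2 * (τ / 2 - β) := by ring
    rw [h1, abs_mul, abs_of_pos (by norm_num : (0 : ℝ) < 2)]
    calc 2 * |τ / 2 - β| ≤ 2 * (2 ^ (M + 1) * (M.factorial : ℝ) / (Q : ℝ) ^ (M + 1)) := by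
          linarith [hβ.trans hs2]
      _ = 2 * (2 ^ (M + 1) * (M.factorial : ℝ)) / (Q : ℝ) ^ (M + 1) := by ring
      _ ≤ _ := by gcongr; linarith
  · have h1 : (-1 : ℤˣ) = -1 * (h * h) := by rw [Int.units_mul_self, mul_one]
    rw [h1]
    refine (hW.sub hWτ ((hW.add β β h h).trans (add_le_add hWβ hWβ))).trans ?_
    rw [← add_mul, ← ENNReal.ofReal_add (by positivity) (by positivity)]
    nth_rewrite 1 [← one_mul η]
    rw [← add_mul, ← ENNReal.ofReal_one, ← ENNReal.ofReal_add (by norm_num) (by positivity)]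
    refine mul_le_mul' (ENNReal.ofReal_le_ofReal ?_) le_rfl
    have : 0 ≤ 2 * (2 ^ (M + 1) * (M.factorial : ℝ)) * Q := by positivity
    nlinarith

end Pool.Agent.H73.Cub
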