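import Mathlib

/-!
# The argument of `x + ω` and its iterated differences
-/

namespace Pool.Agent.H73.Cub

open Complex

noncomputable section

/-- the primitive cube root of unity `ω = -1/2 + (√3/2) i` -/
def om : ℂ := ⟨-1 / 2, Real.sqrt 3 / 2⟩

/-- the argument of `x + ω` -/
def th (x : ℝ) : ℝ := Complex.arg ((x : ℂ) + om)

theorem om_re : om.re = -1 / 2 := rfl
theorem om_im : om.im = Real.sqrt 3 / 2 := rfl

theorem sqrt3_pos : 0 < Real.sqrt 3 := Real.sqrt_pos.2 (by norm_num)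

theorem sqrt3_sq : Real.sqrt 3 * Real.sqrt 3 = 3 := Real.mul_self_sqrt (by norm_num)

theorem add_om_im (x : ℝ) : ((x : ℂ) + om).im = Real.sqrt 3 / 2 := by simp [om_im]

theorem add_om_re (x : ℝ) : ((x : ℂ) + om).re = x - 1 / 2 := by simp [om_re]; ring

theorem add_om_ne (x : ℝ) : (x : ℂ) + om ≠ 0 := by
  intro h
  have := congrArg Complex.im h
  rw [add_om_im] at this
  have h3 := sqrt3_pos
  simp at this

theorem normSq_add_om (x : ℝ) : Complex.normSq ((x : ℂ) + om) = x ^ 2 - x + 1 := by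
  rw [Complex.normSq_apply, add_om_im, add_om_re]
  have := sqrt3_sq
  nlinarith [this]

theorem th_pos (x : ℝ) : 0 < th x := by
  have h := (Complex.arg_nonneg_iff (z := (x : ℂ) + om)).2 (by rw [add_om_im]; positivity)
  refine lt_of_le_of_ne h ?_
  intro h0
  have h1 : ((x : ℂ) + om).im = 0 := by
    have := (Complex.arg_eq_zero_iff (z := (x : ℂ) + om)).1 h0.symm
    exact this.2
  rw [add_om_im] at h1
  have := sqrt3_pos
  linarith

/-- the iterated derivatives of `th` -/
def dth (m : ℕ) (x : ℝ) : ℝ :=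
  if m = 0 then th x else
    ((-1 : ℂ) ^ (m - 1) * ((m - 1).factorial : ℂ) * (((x : ℂ) + om) ^ m)⁻¹).im

theorem hasDerivAt_th (x : ℝ) : HasDerivAt th (dth 1 x) x := by
  have h1 : HasDerivAt (fun y : ℝ => Complex.log ((y : ℂ) + om)) (1 / ((x : ℂ) + om)) x := by
    have h2 : HasDerivAt (fun y : ℝ => (y : ℂ) + om) 1 x := by
      have := (Complex.ofRealCLM.hasDerivAt (x := x)).add_const om
      simpa using this
    have h3 : (x : ℂ) + om ∈ Complex.slitPlane := by
      right
      rw [add_om_im]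
      have := sqrt3_pos
      positivity
    exact h2.clog_real h3
  have h4 : HasDerivAt (fun y : ℝ => (Complex.log ((y : ℂ) + om)).im) (1 / ((x : ℂ) + om)).im x := by
    exact (Complex.imCLM.hasFDerivAt (x := Complex.log ((x : ℂ) + om))).comp_hasDerivAt x h1
  have h5 : (fun y : ℝ => (Complex.log ((y : ℂ) + om)).im) = th := by
    funext y
    rw [Complex.log_im]; rfl
  rw [h5] at h4
  have h6 : dth 1 x = (1 / ((x : ℂ) + om)).im := by
    unfold dth
    simp
  rw [h6]; exact h4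

theorem hasDerivAt_dth (m : ℕ) (x : ℝ) : HasDerivAt (dth m) (dth (m + 1) x) x := by
  rcases Nat.eq_zero_or_pos m with rfl | hm
  · have : dth 0 = th := by funext y; simp [dth]
    rw [this]; exact hasDerivAt_th x
  · have h2 : HasDerivAt (fun y : ℝ => (y : ℂ) + om) 1 x := by
      have := (Complex.ofRealCLM.hasDerivAt (x := x)).add_const om
      simpa using this
    have h3 : HasDerivAt (fun y : ℝ => (((y : ℂ) + om) ^ m)⁻¹)
        (-((m : ℂ) * ((x : ℂ) + om) ^ (m - 1) * 1) / (((x : ℂ) + om) ^ m) ^ 2) x := by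
      have h4 := h2.pow m
      exact h4.inv (pow_ne_zero _ (add_om_ne x))
    have h5 := h3.const_mul ((-1 : ℂ) ^ (m - 1) * ((m - 1).factorial : ℂ))
    have h6 := (Complex.imCLM.hasFDerivAt (x := (-1 : ℂ) ^ (m - 1) * ((m - 1).factorial : ℂ) *
      (((x : ℂ) + om) ^ m)⁻¹)).comp_hasDerivAt x h5
    have h7 : dth m = (fun y : ℝ => ((-1 : ℂ) ^ (m - 1) * ((m - 1).factorial : ℂ) *
      (((y : ℂ) + om) ^ m)⁻¹).im) := by
      funext y
      unfold dth
      rw [if_neg (by omega)]
    have h8 : dth (m + 1) x = ((-1 : ℂ) ^ (m - 1) * ((m - 1).factorial : ℂ) *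
        (-((m : ℂ) * ((x : ℂ) + om) ^ (m - 1) * 1) / (((x : ℂ) + om) ^ m) ^ 2)).im := by
      unfold dth
      rw [if_neg (by omega)]
      congr 1
      obtain ⟨n, rfl⟩ : ∃ n, m = n + 1 := ⟨m - 1, by omega⟩
      have hne := add_om_ne x
      simp only [Nat.add_sub_cancel]
      rw [Nat.factorial_succ]
      push_cast
      field_simp
      ring
    rw [h7, h8]
    exact h6

/-- polar form of the derivatives -/
theorem dth_eq (m : ℕ) (hm : 1 ≤ m) (x : ℝ) :
    dth m x = (-1) ^ m * ((m - 1).factorial : ℝ) * Real.sin (m * th x) / ‖(x : ℂ) + om‖ ^ m := by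
  have hne := add_om_ne x
  have h1 : ((x : ℂ) + om) = (‖(x : ℂ) + om‖ : ℂ) * Complex.exp (th x * Complex.I) := by
    rw [th, Complex.norm_mul_exp_arg_mul_I]
  have hr : ‖(x : ℂ) + om‖ ≠ 0 := by simpa using hne
  have h2 : (((x : ℂ) + om) ^ m)⁻¹ = ((‖(x : ℂ) + om‖ ^ m)⁻¹ : ℝ) * Complex.exp (((-(m * th x) : ℝ) : ℂ) * Complex.I) := by
    conv_lhs => rw [h1]
    rw [mul_pow, ← Complex.exp_nat_mul, mul_inv, ← Complex.exp_neg]
    push_cast
    congr 2
    ring
  unfold dth
  rw [if_neg (by omega), h2]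
  have h3 : ((-1 : ℂ) ^ (m - 1) * ((m - 1).factorial : ℂ) * (((‖(x : ℂ) + om‖ ^ m)⁻¹ : ℝ) *
      Complex.exp (((-(m * th x) : ℝ) : ℂ) * Complex.I))) =
      (((-1) ^ (m - 1) * ((m - 1).factorial : ℝ) * (‖(x : ℂ) + om‖ ^ m)⁻¹ : ℝ) : ℂ) *
      Complex.exp (((-(m * th x) : ℝ) : ℂ) * Complex.I) := by
    push_cast; ring
  rw [h3, Complex.im_ofReal_mul, Complex.exp_ofReal_mul_I_im, Real.sin_neg]
  obtain ⟨n, rfl⟩ : ∃ n, m = n + 1 := ⟨m - 1, by omega⟩
  simp only [Nat.add_sub_cancel, pow_succ (-1 : ℝ)]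
  rw [div_eq_mul_inv]
  ring

theorem norm_sq_add_om (x : ℝ) : ‖(x : ℂ) + om‖ ^ 2 = x ^ 2 - x + 1 := by
  rw [← normSq_add_om, Complex.normSq_eq_norm_sq]

theorem norm_add_om_le {x : ℝ} (hx : 1 ≤ x) : ‖(x : ℂ) + om‖ ≤ x := by
  have h := norm_sq_add_om x
  have h0 := norm_nonneg ((x : ℂ) + om)
  nlinarith

theorem le_norm_add_om {x : ℝ} (hx : 1 ≤ x) : x / 2 ≤ ‖(x : ℂ) + om‖ := by
  have h := norm_sq_add_om x
  have h0 := norm_nonneg ((x : ℂ) + om)
  nlinarith

theorem th_lower {x : ℝ} (hx : 1 ≤ x) : Real.sqrt 3 / 2 / x ≤ th x := by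
  have h1 : Real.sin (th x) = Real.sqrt 3 / 2 / ‖(x : ℂ) + om‖ := by
    rw [th, Complex.sin_arg, add_om_im]
  have h2 := Real.sin_le (th_pos x).le
  rw [h1] at h2
  refine le_trans ?_ h2
  have hr := norm_add_om_le hx
  have hp : 0 < ‖(x : ℂ) + om‖ := norm_pos_iff.2 (add_om_ne x)
  have := sqrt3_pos
  gcongr

theorem th_upper {x : ℝ} (hx : 1 ≤ x) : th x ≤ 2 / x := by
  have h1 : Real.tan (th x) = Real.sqrt 3 / 2 / (x - 1 / 2) := by
    rw [th, Complex.tan_arg, add_om_im, add_om_re]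
  have h2 : |th x| < Real.pi / 2 := by
    rw [th, Complex.abs_arg_lt_pi_div_two_iff]
    left; rw [add_om_re]; linarith
  have h3 := Real.le_tan (th_pos x).le (lt_of_le_of_lt (le_abs_self _) h2)
  rw [h1] at h3
  refine h3.trans ?_
  have h4 : Real.sqrt 3 ≤ 2 := by
    rw [show (2 : ℝ) = Real.sqrt 4 by rw [show (4 : ℝ) = 2 ^ 2 by norm_num]; simp]
    exact Real.sqrt_le_sqrt (by norm_num)
  have h5 := sqrt3_pos
  rw [div_le_div_iff₀ (by linarith) (by linarith)]
  nlinarith

theorem dth_bounds (m : ℕ) {x : ℝ} (hx : 1 ≤ x) (hm : 2 * (m : ℝ) ≤ x) :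
    (m.factorial : ℝ) / 2 / x ^ (m + 1) ≤ (-1) ^ m * dth m x ∧
    (-1) ^ m * dth m x ≤ 2 ^ (m + 1) * (m.factorial : ℝ) / x ^ (m + 1) := by
  have hx0 : 0 < x := by linarith
  have hlow := th_lower hx
  have hup := th_upper hx
  have hpos := th_pos x
  have h3 := sqrt3_pos
  have h3' : (1 : ℝ) < Real.sqrt 3 := by
    rw [show (1 : ℝ) = Real.sqrt 1 by simp]
    exact Real.sqrt_lt_sqrt (by norm_num) (by norm_num)
  rcases Nat.eq_zero_or_pos m with rfl | hmpos
  · have : dth 0 x = th x := by simp [dth]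
    rw [this]
    simp only [pow_zero, one_mul, Nat.factorial_zero, Nat.cast_one, zero_add, pow_one, mul_one]
    constructor
    · refine le_trans ?_ hlow
      gcongr
    · exact hup
  · have hr1 := norm_add_om_le hx
    have hr2 := le_norm_add_om hx
    have hr0 : 0 < ‖(x : ℂ) + om‖ := norm_pos_iff.2 (add_om_ne x)
    set r := ‖(x : ℂ) + om‖ with hr
    have hmR : (1 : ℝ) ≤ m := by exact_mod_cast hmpos
    have hang : (m : ℝ) * th x ≤ 1 := by
      calc (m : ℝ) * th x ≤ m * (2 / x) := by gcongr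
        _ = 2 * m / x := by ring
        _ ≤ 1 := by rw [div_le_one hx0]; exact hm
    have hpi := Real.pi_gt_three
    have hpi4 := Real.pi_le_four
    have hs1 : Real.sin (m * th x) ≤ m * th x := Real.sin_le (by positivity)
    have hs2 : 2 / Real.pi * (m * th x) ≤ Real.sin (m * th x) :=
      Real.mul_le_sin (by positivity) (by linarith)
    have hs0 : 0 ≤ Real.sin (m * th x) := le_trans (by positivity) hs2
    have heq : (-1) ^ m * dth m x = ((m - 1).factorial : ℝ) * Real.sin (m * th x) / r ^ m := by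
      rw [dth_eq m hmpos x, ← hr]
      have : ((-1 : ℝ) ^ m) * ((-1) ^ m) = 1 := by rw [← mul_pow]; norm_num
      calc (-1 : ℝ) ^ m * ((-1) ^ m * ((m - 1).factorial : ℝ) * Real.sin (m * th x) / r ^ m)
          = ((-1 : ℝ) ^ m * (-1) ^ m) * (((m - 1).factorial : ℝ) * Real.sin (m * th x) / r ^ m) := by ring
        _ = _ := by rw [this, one_mul]
    have hfac : (m.factorial : ℝ) = m * ((m - 1).factorial : ℝ) := by
      rw [← Nat.mul_factorial_pred (by omega : m ≠ 0)]; push_cast; ring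
    rw [heq]
    constructor
    · have h1 : (1 : ℝ) / 2 / x ≤ 2 / Real.pi * th x := by
        have : Real.sqrt 3 / Real.pi / x ≤ 2 / Real.pi * th x := by
          calc Real.sqrt 3 / Real.pi / x = 2 / Real.pi * (Real.sqrt 3 / 2 / x) := by
                field_simp
            _ ≤ _ := by gcongr
        refine le_trans ?_ this
        have h17 : (1.7 : ℝ) ≤ Real.sqrt 3 := by
          rw [show (1.7 : ℝ) = Real.sqrt (1.7 ^ 2) by rw [Real.sqrt_sq (by norm_num)]]
          exact Real.sqrt_le_sqrt (by norm_num)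
        have hpi2 := Real.pi_lt_d2
        gcongr ?_ / x
        rw [div_le_div_iff₀ (by norm_num) (by positivity)]
        linarith
      calc (m.factorial : ℝ) / 2 / x ^ (m + 1)
          = (m - 1).factorial * (m * (1 / 2 / x)) / x ^ m := by
            rw [hfac, pow_succ]; field_simp
        _ ≤ (m - 1).factorial * (m * (2 / Real.pi * th x)) / x ^ m := by gcongr
        _ = (m - 1).factorial * (2 / Real.pi * (m * th x)) / x ^ m := by ring
        _ ≤ (m - 1).factorial * Real.sin (m * th x) / x ^ m := by gcongr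
        _ ≤ (m - 1).factorial * Real.sin (m * th x) / r ^ m := by gcongr
    · calc ((m - 1).factorial : ℝ) * Real.sin (m * th x) / r ^ m
          ≤ (m - 1).factorial * (m * th x) / r ^ m := by gcongr
        _ ≤ (m - 1).factorial * (m * (2 / x)) / r ^ m := by gcongr
        _ ≤ (m - 1).factorial * (m * (2 / x)) / (x / 2) ^ m := by gcongr
        _ = 2 ^ (m + 1) * (m.factorial : ℝ) / x ^ (m + 1) := by
            rw [hfac, div_pow]; field_simp; ring

/-- forward difference -/
def fd (f : ℝ → ℝ) (x : ℝ) : ℝ := f (x + 1) - f x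

theorem fd_iter_bounds (m : ℕ) : ∀ (F : ℕ → ℝ → ℝ), (∀ i x, HasDerivAt (F i) (F (i + 1) x) x) →
    ∀ (x0 a b : ℝ), (∀ y, x0 ≤ y → y ≤ x0 + m → a ≤ F m y ∧ F m y ≤ b) →
      a ≤ fd^[m] (F 0) x0 ∧ fd^[m] (F 0) x0 ≤ b := by
  induction m with
  | zero =>
    intro F _ x0 a b h
    exact h x0 le_rfl (by simp)
  | succ m ih =>
    intro F hF x0 a b h
    rw [Function.iterate_succ_apply]
    refine ih (fun i => fd (F i)) ?_ x0 a b ?_
    · intro i x
      have h1 := (hF i (x + 1)).comp_add_const x 1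
      exact h1.sub (hF i x)
    · intro y hy1 hy2
      obtain ⟨c, hc, hc2⟩ := exists_hasDerivAt_eq_slope (F m) (F (m + 1)) (a := y) (b := y + 1)
        (by linarith) (fun z _ => (hF m z).continuousAt.continuousWithinAt) (fun z _ => hF m z)
      have h2 := h c (by linarith [hc.1]) (by push_cast; linarith [hc.2])
      have h3 : fd (F m) y = F (m + 1) c := by
        rw [hc2]; unfold fd; field_simp; ring
      show a ≤ fd (F m) y ∧ fd (F m) y ≤ b
      rw [h3]; exact h2

theorem th_fd_bounds (m : ℕ) {n : ℝ} (hn : 1 ≤ n) (hm : 2 * (m : ℝ) ≤ n) :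
    (m.factorial : ℝ) / 2 / (2 * n) ^ (m + 1) ≤ |fd^[m] th n| ∧
    |fd^[m] th n| ≤ 2 ^ (m + 1) * (m.factorial : ℝ) / n ^ (m + 1) := by
  have h0 : dth 0 = th := by funext y; simp [dth]
  have hb : ∀ y, n ≤ y → y ≤ n + m →
      (m.factorial : ℝ) / 2 / (2 * n) ^ (m + 1) ≤ (-1) ^ m * dth m y ∧
      (-1) ^ m * dth m y ≤ 2 ^ (m + 1) * (m.factorial : ℝ) / n ^ (m + 1) := by
    intro y hy1 hy2
    obtain ⟨h1, h2⟩ := dth_bounds m (x := y) (by linarith) (by linarith)
    have hmn : (m : ℝ) ≤ n := by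
      have : (0 : ℝ) ≤ m := Nat.cast_nonneg m
      linarith
    have hy0 : 0 < y := by linarith
    have hy3 : y ≤ 2 * n := by linarith
    constructor
    · refine le_trans ?_ h1
      gcongr
    · refine h2.trans ?_
      gcongr
  rcases Nat.even_or_odd m with he | ho
  · have hs : ((-1 : ℝ) ^ m) = 1 := he.neg_one_pow
    have := fd_iter_bounds m dth hasDerivAt_dth n ((m.factorial : ℝ) / 2 / (2 * n) ^ (m + 1))
      (2 ^ (m + 1) * (m.factorial : ℝ) / n ^ (m + 1)) (by
        intro y hy1 hy2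
        have := hb y hy1 hy2
        rw [hs] at this; simpa using this)
    rw [h0] at this
    have hnn : 0 ≤ fd^[m] th n := le_trans (by positivity) this.1
    rw [abs_of_nonneg hnn]
    exact this
  · have hs : ((-1 : ℝ) ^ m) = -1 := ho.neg_one_pow
    have := fd_iter_bounds m dth hasDerivAt_dth n (-(2 ^ (m + 1) * (m.factorial : ℝ) / n ^ (m + 1)))
      (-((m.factorial : ℝ) / 2 / (2 * n) ^ (m + 1))) (by
        intro y hy1 hy2
        have := hb y hy1 hy2
        rw [hs] at this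
        constructor <;> linarith [this.1, this.2])
    rw [h0] at this
    have hnn : fd^[m] th n ≤ 0 := le_trans this.2 (by
      have : 0 ≤ (m.factorial : ℝ) / 2 / (2 * n) ^ (m + 1) := by positivity
      linarith)
    rw [abs_of_nonpos hnn]
    constructor <;> linarith [this.1, this.2]

end

end Pool.Agent.H73.Cub
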